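import Mathlib
import Pool.Agent.H793.ZI.Fou

/-!
# Lower bound for the Steklov zeta-invariants (MP_ed7f76_gt, Q1: positive answer)

For every integer `k ≥ 2` there is a constant `c > 0`, depending only on `k`, such that for every
smooth real function `a` on the circle
`Z_k(a) ≥ c * ∑_{n ≥ 2} n ^ (2k+1) * |a_n| ^ (2k)`.

Correspondence with the problem file.

* A smooth real function on the circle is a smooth `2π`-periodic function `a : ℝ → ℝ`.
* `fourierCoef a n` is the Fourier coefficient of `a` of index `n`.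
* `f j n` is `n (n + j_1) (n + j_1 + j_2) ⋯ (n + j_1 + ⋯ + j_{2k-1})`; the indices `j_1, …, j_{2k}` are
  `j 0, …, j (2k-1)` here, and the factor of index `i` is `n + ∑_{l < i} j l`.
* `N j` is `∑_{n ∈ ℤ} (|f(n)| - f(n))`; only finitely many terms are nonzero
  (`f_support_finite` below).
* `Z k a` is the sum of `N j * ∏ i, fourierCoef a (j i)` over all tuples with sum zero; the theorem
  also proves that the series converges absolutely and that its sum is real.

Idea of the proof. For a trigonometric polynomial, `Z_k(a) = Tr X^{2k} - Tr (X Y)^k`, where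
`X_{mn} = |m|^{1/2} |n|^{1/2} a_{n-m}` and `Y = S X S` with `S` the diagonal matrix of signs. For
hermitian `X, Y` one has `|Tr (X Y)^k| ≤ Tr ((X² + Y²)/2)^k` (Schur triangularisation), and a
quantitative convexity estimate for `A ↦ Tr A^k` bounds `Z_k` from below by the sum of the `k`-th
powers of the column norms of `(X² - Y²)/2`. The entries of that matrix are
`(mn)^{1/2} ∑_p |p - n| a_p a_{m+n-p}` and their second differences give back `a_m a_n`; a window
argument over dyadic blocks finishes the proof.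
-/

set_option autoImplicit false

namespace Pool.Agent.Results.MP_ed7f76_gt.ZetaLowerBound

open scoped ContDiff

/-- The Fourier coefficient of index `n`: `(1 / 2π) ∫_0^{2π} a(θ) e^{-inθ} dθ`. -/
noncomputable def fourierCoef (a : ℝ → ℝ) (n : ℤ) : ℂ :=
  ((1 / (2 * Real.pi) : ℝ) : ℂ) *
    ∫ θ in (0 : ℝ)..(2 * Real.pi), (a θ : ℂ) * Complex.exp (-(Complex.I * n * θ))

/-- The polynomial `f(n) = n (n + j_1) (n + j_1 + j_2) ⋯ (n + j_1 + ⋯ + j_{2k-1})`. -/
def f {k : ℕ} (j : Fin (2 * k) → ℤ) (n : ℤ) : ℤ :=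
  ∏ i : Fin (2 * k), (n + ∑ l ∈ Finset.Iio i, j l)

/-- The coefficient `N_j = ∑_{n ∈ ℤ} (|f(n)| - f(n))`. -/
noncomputable def N {k : ℕ} (j : Fin (2 * k) → ℤ) : ℤ := ∑ᶠ n : ℤ, (|f j n| - f j n)

/-- The tuples `(j_1, …, j_{2k})` of integers with sum zero. -/
abbrev ZeroSum (k : ℕ) : Type := {j : Fin (2 * k) → ℤ // ∑ i, j i = 0}

/-- The summand of `Z_k(a)` attached to a tuple. -/
noncomputable def zetaTerm (k : ℕ) (a : ℝ → ℝ) (j : ZeroSum k) : ℂ :=
  (N j.1 : ℂ) * ∏ i, fourierCoef a (j.1 i)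

/-- The zeta-invariant `Z_k(a)`. -/
noncomputable def Z (k : ℕ) (a : ℝ → ℝ) : ℂ := ∑' j : ZeroSum k, zetaTerm k a j

/-- The summand `n ^ (2k+1) |a_n| ^ (2k)` of the right-hand side. -/
noncomputable def rhsTerm (k : ℕ) (a : ℝ → ℝ) (n : ℕ) : ℝ :=
  (n : ℝ) ^ (2 * k + 1) * ‖fourierCoef a (n : ℤ)‖ ^ (2 * k)

open Pool.Agent.H793.ZI in
theorem f_eq {k : ℕ} (j : Fin (2 * k) → ℤ) (n : ℤ) : f j n = fpol j n := by
  unfold f fpol
  refine Finset.prod_congr rfl fun i _ => ?_
  congr 1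
  unfold ps
  rw [← Finset.sum_filter]
  congr 1
  ext l
  simp

open Pool.Agent.H793.ZI in
/-- Only finitely many terms of the sum defining `N j` are nonzero. -/
theorem f_support_finite {k : ℕ} (hk : 1 ≤ k) (j : Fin (2 * k) → ℤ) :
    (Function.support fun n : ℤ => |f j n| - f j n).Finite := by
  simp only [f_eq]
  exact (Finset.finite_toSet _).subset (fin_supp (even_two_mul k) (by omega) j)

open Pool.Agent.H793.ZI in
theorem N_eq {k : ℕ} (j : Fin (2 * k) → ℤ) : N j = Nc j := by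
  unfold N Nc
  simp only [f_eq]

/-- **Positive answer to Q1.** -/
theorem result : ∀ k : ℕ, 2 ≤ k → ∃ c : ℝ, 0 < c ∧ ∀ a : ℝ → ℝ, ContDiff ℝ ∞ a →
    Function.Periodic a (2 * Real.pi) →
      Summable (zetaTerm k a) ∧ (Z k a).im = 0 ∧
      (Summable fun n : ℕ => rhsTerm k a (n + 2)) ∧
      c * ∑' n : ℕ, rhsTerm k a (n + 2) ≤ (Z k a).re := by
  intro k hk
  have hC : 0 < 6 * Pool.Agent.H793.ZI.Ck k := by
    unfold Pool.Agent.H793.ZI.Ck
    positivity
  refine ⟨(6 * Pool.Agent.H793.ZI.Ck k)⁻¹, by positivity, fun a ha hp => ?_⟩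
  have hfc : fourierCoef a = Pool.Agent.H793.ZI.fc a := rfl
  have h := Pool.Agent.H793.ZI.main_seq hk (α := fourierCoef a)
    (fun n => Pool.Agent.H793.ZI.fc_herm a n)
    (Pool.Agent.H793.ZI.fc_summable ha hp (2 * k + 1))
  have hT : zetaTerm k a = fun j : ZeroSum k =>
      (Pool.Agent.H793.ZI.Nc j.1 : ℂ) * ∏ i, fourierCoef a (j.1 i) := by
    funext j
    unfold zetaTerm
    rw [N_eq]
  unfold Z rhsTerm
  rw [hT]
  obtain ⟨h1, h2, h3, h4⟩ := h
  refine ⟨h1, h2, h3, ?_⟩
  rw [inv_mul_le_iff₀ hC]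
  exact h4

end Pool.Agent.Results.MP_ed7f76_gt.ZetaLowerBound
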